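import Mathlib

/-! The stable range theorem of Bass. -/

namespace Pool.Agent.Lib.MP_69ff52_al

variable {R : Type} [CommRing R]

variable (R) in
/-- Unimodular rows with more than `d` entries can be shortened. -/
def SR (d : ℕ) : Prop := ∀ (ι : Type) [Fintype ι], d ≤ Fintype.card ι → ∀ (a y : ι → R) (c z : R),
  ∑ i, y i * a i + z * c = 1 → ∃ b y' : ι → R, ∑ i, y' i * (a i + b i * c) = 1

lemma avoid (M : Finset (Ideal R)) (hp : ∀ q ∈ M, q.IsPrime)
    (hi : ∀ q ∈ M, ∀ q' ∈ M, q ≤ q' → q = q') (a c : R) (hc : ∀ q ∈ M, c ∉ q) :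
    ∃ b, ∀ q ∈ M, a + b * c ∉ q := by
  classical
  induction M using Finset.induction_on with
  | empty => simp
  | insert q M hq ih =>
    simp only [Finset.forall_mem_insert] at hp hi hc ⊢
    obtain ⟨b, hb⟩ := ih hp.2 (fun p h p' h' => (hi.2 p h).2 p' h') hc.2
    by_cases h : a + b * c ∈ q
    · have : ¬ M.inf id ≤ q := fun h => by
        obtain ⟨p, h1, h2⟩ := hp.1.inf_le'.mp h
        exact hq ((hi.2 p h1).1 h2 ▸ h1)
      obtain ⟨e, h1, h2⟩ := Set.not_subset.mp this
      refine ⟨b + e, fun h3 => ?_, fun p h3 h4 => hb p h3 ?_⟩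
      · have := q.sub_mem h3 h
        rw [show a + (b + e) * c - (a + b * c) = e * c by ring] at this
        exact (hp.1.mem_or_mem this).elim h2 hc.1
      · have := p.sub_mem h4 (p.mul_mem_right c (Finset.inf_le (f := id) h3 h1))
        rwa [show a + (b + e) * c - e * c = a + b * c by ring] at this
    · exact ⟨b, h, hb⟩

theorem bass [IsNoetherianRing R] {d : ℕ} (hd : ringKrullDim R ≤ d) : SR R (d + 1) := by
  classical
  intro ι _ hι a y c z h
  have key : ∀ F : Finset ι, ∃ b : ι → R, ∀ p : Ideal R, p.IsPrime → c ∉ p →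
      (∀ i ∈ F, a i + b i * c ∈ p) → (F.card : ℕ∞) ≤ p.height := by
    intro F
    induction F using Finset.induction_on with
    | empty => simp
    | insert j F hj ih =>
      obtain ⟨b, hb⟩ := ih
      let I : Ideal R := Ideal.span ((fun i => a i + b i * c) '' F)
      have hf := (I.finite_minimalPrimes_of_isNoetherianRing R).subset
        (Set.sep_subset I.minimalPrimes fun q => c ∉ q)
      obtain ⟨β, hβ⟩ := avoid hf.toFinset (fun q hq => (hf.mem_toFinset.mp hq).1.1.1)
        (fun q hq q' hq' e => le_antisymm e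
          ((hf.mem_toFinset.mp hq').1.2 (hf.mem_toFinset.mp hq).1.1 e)) (a j) c
        (fun q hq => (hf.mem_toFinset.mp hq).2)
      refine ⟨Function.update b j β, fun p hp hc h => ?_⟩
      have h1 : I ≤ p := by
        refine Ideal.span_le.mpr ?_
        rintro _ ⟨i, hi, rfl⟩
        have := h i (Finset.mem_insert_of_mem hi)
        rwa [Function.update_of_ne (by rintro rfl; exact hj hi)] at this
      obtain ⟨q, hq, hqp⟩ := Ideal.exists_minimalPrimes_le h1
      have hq1 := hq.1.1
      have hcq : c ∉ q := fun e => hc (hqp e)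
      have h2 := h j (Finset.mem_insert_self _ _)
      rw [Function.update_self] at h2
      have h3 : q < p := lt_of_le_of_ne hqp (by
        rintro rfl
        exact hβ q (hf.mem_toFinset.mpr ⟨hq, hcq⟩) h2)
      have h4 := hb q hq1 hcq fun i hi => hq.1.2 (Ideal.subset_span ⟨i, hi, rfl⟩)
      rw [Finset.card_insert_of_notMem hj, Nat.cast_succ]
      exact (add_le_add_left h4 1).trans (Ideal.height_add_one_le_of_lt_of_isPrime h3)
  obtain ⟨b, hb⟩ := key Finset.univ
  have : Ideal.span (Set.range fun i => a i + b i * c) = ⊤ := by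
    by_contra hne
    obtain ⟨p, hp, h1⟩ := Ideal.exists_le_maximal _ hne
    have h2 : ∀ i, a i + b i * c ∈ p := fun i => h1 (Ideal.subset_span ⟨i, rfl⟩)
    by_cases hc : c ∈ p
    · refine hp.ne_top ((Ideal.eq_top_iff_one p).mpr (h ▸ p.add_mem (p.sum_mem fun i _ => ?_)
        (p.mul_mem_left z hc)))
      exact p.mul_mem_left _ (by simpa using p.sub_mem (h2 i) (p.mul_mem_left (b i) hc))
    · have h3 := hb p hp.isPrime hc fun i _ => h2 i
      have h4 := (Ideal.height_le_ringKrullDim_of_isPrime (I := p)).trans hd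
      have h5 : p.height ≤ d := by exact_mod_cast h4
      have h6 : (Finset.univ : Finset ι).card ≤ d := by exact_mod_cast h3.trans h5
      rw [Finset.card_univ] at h6
      omega
  obtain ⟨y', hy⟩ := Ideal.mem_span_range_iff_exists_fun.mp ((Ideal.eq_top_iff_one _).mp this)
  exact ⟨b, y', hy⟩

lemma SR.pi {d : ℕ} (h : SR R d) (I : Type) : SR (I → R) d := by
  intro ι _ hι a y c z e
  have := fun t => h ι hι (fun i => a i t) (fun i => y i t) (c t) (z t)
    (by simpa using congrFun e t)
  choose b y' hb using this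
  exact ⟨fun i t => b t i, fun i t => y' t i, funext fun t => by simpa using hb t⟩

lemma sr_mv (n : ℕ) : SR (MvPolynomial (Fin n) ℤ) (n + 2) := by
  refine bass (d := n + 1) ?_
  rw [MvPolynomial.ringKrullDim_of_isNoetherianRing,
    IsPrincipalIdealRing.ringKrullDim_eq_one ℤ Int.not_isField, add_comm]
  simp

end Pool.Agent.Lib.MP_69ff52_al
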