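import Mathlib

/-! Elementary matrices, stabilisation and the stable class of an invertible matrix. -/

namespace Pool.Agent.Lib.MP_69ff52_al

open Matrix Function

variable {ι κ μ S : Type} [CommRing S] [Fintype ι] [DecidableEq ι] [Fintype κ]
  [DecidableEq κ] [Fintype μ] [DecidableEq μ]

variable (S) in
/-- Products of elementary matrices that change only the rows in `T`. -/
def Er (T : Set ι) : Submonoid (Matrix ι ι S) :=
  Submonoid.closure {x | ∃ i j c, i ≠ j ∧ i ∈ T ∧ x = 1 + single i j c}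

variable (ι S) in
/-- Products of elementary matrices. -/
abbrev El : Submonoid (Matrix ι ι S) := Er S Set.univ

lemma er_single {T : Set ι} {i j : ι} (h : i ≠ j) (hi : i ∈ T) (c : S) :
    1 + single i j c ∈ Er S T := Submonoid.subset_closure ⟨i, j, c, h, hi, rfl⟩

lemma er_inv {T : Set ι} {x : Matrix ι ι S} (hx : x ∈ Er S T) : ∃ y ∈ Er S T, y * x = 1 := by
  induction hx using Submonoid.closure_induction with
  | mem x hx =>
    obtain ⟨i, j, c, h, hi, rfl⟩ := hx
    refine ⟨_, er_single h hi (-c), ?_⟩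
    rw [add_mul, mul_add, mul_add, single_mul_single_of_ne _ _ _ _ h.symm, ← single_neg]
    simp
  | one => exact ⟨1, one_mem _, one_mul _⟩
  | mul x y _ _ hx hy =>
    obtain ⟨x', h1, h2⟩ := hx
    obtain ⟨y', h3, h4⟩ := hy
    exact ⟨y' * x', mul_mem h3 h1, by rw [mul_assoc, ← mul_assoc x', h2, one_mul, h4]⟩

lemma er_det {T : Set ι} {x : Matrix ι ι S} (hx : x ∈ Er S T) : x.det = 1 := by
  induction hx using Submonoid.closure_induction with
  | mem x hx =>
    obtain ⟨i, j, c, h, -, rfl⟩ := hx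
    exact det_transvection_of_ne i j h c
  | one => exact det_one
  | mul x y _ _ hx hy => rw [det_mul, hx, hy, one_mul]

lemma er_of_supp {T : Set ι} (U : Set ι) (hU : U ⊆ T) (X : Matrix ι ι S)
    (h : ∀ p q, p ∉ U ∨ q ∈ U → X p q = 0) : 1 + X ∈ Er S T := by
  have key : (∀ p q, p ∉ U ∨ q ∈ U → (∑ p, ∑ q, single p q (X p q)) p q = 0) ∧
      1 + ∑ p, ∑ q, single p q (X p q) ∈ Er S T := by
    have hadd : ∀ Y Z : Matrix ι ι S, (∀ p q, p ∉ U ∨ q ∈ U → Y p q = 0) ∧ 1 + Y ∈ Er S T →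
        (∀ p q, p ∉ U ∨ q ∈ U → Z p q = 0) ∧ 1 + Z ∈ Er S T →
        (∀ p q, p ∉ U ∨ q ∈ U → (Y + Z) p q = 0) ∧ 1 + (Y + Z) ∈ Er S T := by
      intro Y Z hY hZ
      refine ⟨fun p q h => by rw [Matrix.add_apply, hY.1 p q h, hZ.1 p q h, add_zero], ?_⟩
      have e : Y * Z = 0 := by
        ext p q
        rw [mul_apply]
        refine Finset.sum_eq_zero fun l _ => ?_
        by_cases hl : l ∈ U
        · rw [hY.1 p l (Or.inr hl), zero_mul]
        · rw [hZ.1 l q (Or.inl hl), mul_zero]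
      have := mul_mem hY.2 hZ.2
      rwa [add_mul, mul_add, mul_add, e, one_mul, one_mul, mul_one, add_zero, add_assoc,
        add_comm Z] at this
    have h0 : (∀ p q, p ∉ U ∨ q ∈ U → (0 : Matrix ι ι S) p q = 0) ∧ 1 + 0 ∈ Er S T :=
      ⟨fun _ _ _ => rfl, by rw [add_zero]; exact one_mem _⟩
    refine Finset.sum_induction _ (fun Y : Matrix ι ι S =>
      (∀ p q, p ∉ U ∨ q ∈ U → Y p q = 0) ∧ 1 + Y ∈ Er S T) hadd h0 fun p _ =>
      Finset.sum_induction _ (fun Y : Matrix ι ι S =>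
        (∀ p q, p ∉ U ∨ q ∈ U → Y p q = 0) ∧ 1 + Y ∈ Er S T) hadd h0 fun q _ => ?_
    by_cases hpq : p ∉ U ∨ q ∈ U
    · rw [h p q hpq, single_zero]
      exact h0
    · push Not at hpq
      refine ⟨fun p' q' h' => single_apply_of_ne _ _ _ _ _ ?_,
        er_single (by rintro rfl; exact hpq.2 hpq.1) (hU hpq.1) _⟩
      rintro ⟨rfl, rfl⟩
      exact h'.elim (fun h => h hpq.1) hpq.2
  rw [matrix_eq_sum_single X]
  exact key.2

variable (S) in
/-- The matrix of a map of index sets. -/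
def inc (f : ι → κ) : Matrix κ ι S := (1 : Matrix κ κ S).submatrix id f

variable (S) in
/-- Its transpose. -/
def prj (f : ι → κ) : Matrix ι κ S := (1 : Matrix κ κ S).submatrix f id

omit [Fintype ι] [DecidableEq ι] [Fintype μ] [DecidableEq μ] in
lemma mul_inc (f : ι → κ) (x : Matrix μ κ S) : x * inc S f = x.submatrix id f := by
  ext a b
  simp [inc, mul_apply, one_apply]

omit [Fintype ι] [DecidableEq ι] [Fintype μ] [DecidableEq μ] in
lemma prj_mul (f : ι → κ) (x : Matrix κ μ S) : prj S f * x = x.submatrix f id := by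
  ext a b
  simp [prj, mul_apply, one_apply]

omit [Fintype ι] in
lemma prj_inc {f : ι → κ} (hf : Injective f) : prj S f * inc S f = 1 := by
  rw [prj_mul]
  exact submatrix_one f hf

/-- Extension of a square matrix by the identity. -/
def xt (f : ι → κ) (x : Matrix ι ι S) : Matrix κ κ S := 1 + inc S f * (x - 1) * prj S f

omit [Fintype κ] in
@[simp] lemma xt_one (f : ι → κ) : xt f (1 : Matrix ι ι S) = 1 := by simp [xt]

lemma xt_mul {f : ι → κ} (hf : Injective f) (x y : Matrix ι ι S) :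
    xt f (x * y) = xt f x * xt f y := by
  have e : inc S f * (x - 1) * prj S f * (inc S f * (y - 1) * prj S f) =
      inc S f * ((x - 1) * (y - 1)) * prj S f := by
    simp only [Matrix.mul_assoc]
    rw [← Matrix.mul_assoc (prj S f), prj_inc hf, Matrix.one_mul]
  rw [xt, xt, xt, add_mul, mul_add, mul_add, e, one_mul, one_mul, mul_one,
    show x * y - 1 = y - 1 + (x - 1 + (x - 1) * (y - 1)) by noncomm_ring]
  simp only [Matrix.mul_add, Matrix.add_mul, add_assoc]

omit [Fintype μ] in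
lemma xt_xt (f : ι → κ) (g : κ → μ) (x : Matrix ι ι S) : xt g (xt f x) = xt (g ∘ f) x := by
  have e1 : inc S g * inc S f = inc S (g ∘ f) := mul_inc _ _
  have e2 : prj S f * prj S g = prj S (g ∘ f) := prj_mul _ _
  rw [xt, xt, xt, add_sub_cancel_left, ← e1, ← e2]
  simp only [Matrix.mul_assoc]

lemma xt_id (x : Matrix ι ι S) : xt id x = x := by simp [xt, inc, prj]

omit [Fintype κ] in
lemma xt_single (f : ι → κ) (i j : ι) (c : S) :
    xt f (1 + single i j c) = 1 + single (f i) (f j) c := by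
  rw [xt, add_sub_cancel_left]
  congr 1
  ext p q
  rw [mul_apply, Finset.sum_eq_single j (fun b _ hb => by simp [mul_apply, hb.symm])
    (by simp)]
  simp [mul_apply, inc, prj, one_apply, single_apply, ite_and, eq_comm]
  split_ifs <;> rfl

/-- Extension as a homomorphism. -/
def xtHom {f : ι → κ} (hf : Injective f) : Matrix ι ι S →* Matrix κ κ S where
  toFun := xt f
  map_one' := xt_one f
  map_mul' := xt_mul hf

lemma xt_el {f : ι → κ} (hf : Injective f) {x : Matrix ι ι S} (hx : x ∈ El ι S) :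
    xt f x ∈ El κ S := by
  induction hx using Submonoid.closure_induction with
  | mem x hx =>
    obtain ⟨i, j, c, h, -, rfl⟩ := hx
    rw [xt_single]
    exact er_single (hf.ne h) (Set.mem_univ _) c
  | one => rw [xt_one]; exact one_mem _
  | mul x y _ _ hx hy => rw [xt_mul hf]; exact mul_mem hx hy

omit [Fintype κ] in
lemma xt_inl (x : Matrix ι ι S) : xt (Sum.inl : ι → ι ⊕ κ) x = fromBlocks x 0 0 1 := by
  ext (p | p) (q | q) <;> simp [xt, mul_apply, inc, prj, one_apply]

omit [Fintype ι] in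
lemma xt_inr (x : Matrix κ κ S) : xt (Sum.inr : κ → ι ⊕ κ) x = fromBlocks 1 0 0 x := by
  ext (p | p) (q | q) <;> simp [xt, mul_apply, inc, prj, one_apply]

/-- Stably elementary matrices. -/
def SE (x : Matrix ι ι S) : Prop :=
  ∃ (κ : Type) (_ : Fintype κ) (_ : DecidableEq κ) (f : ι → κ), Injective f ∧ xt f x ∈ El κ S

lemma se_of_el {x : Matrix ι ι S} (h : x ∈ El ι S) : SE x :=
  ⟨ι, _, _, id, injective_id, by rwa [xt_id]⟩

lemma SE.inl {x : Matrix ι ι S} (h : SE x) : ∃ (κ : Type) (_ : Fintype κ) (_ : DecidableEq κ),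
    xt (Sum.inl : ι → ι ⊕ κ) x ∈ El _ S := by
  obtain ⟨κ, _, _, f, hf, h⟩ := h
  have hg : Injective (extend f Sum.inl Sum.inr : κ → ι ⊕ κ) := by
    intro p q e
    by_cases hp : ∃ a, f a = p <;> by_cases hq : ∃ a, f a = q
    · obtain ⟨a, rfl⟩ := hp
      obtain ⟨b, rfl⟩ := hq
      rw [hf.extend_apply, hf.extend_apply] at e
      rw [Sum.inl_injective e]
    · obtain ⟨a, rfl⟩ := hp
      rw [hf.extend_apply, extend_apply' _ _ _ hq] at e
      cases e
    · obtain ⟨a, rfl⟩ := hq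
      rw [hf.extend_apply, extend_apply' _ _ _ hp] at e
      cases e
    · rw [extend_apply' _ _ _ hp, extend_apply' _ _ _ hq] at e
      exact Sum.inr_injective e
  have := xt_el hg h
  rw [xt_xt, extend_comp hf] at this
  exact ⟨κ, _, _, this⟩

lemma se_xt {f : ι → κ} (hf : Injective f) {x : Matrix ι ι S} : SE (xt f x) ↔ SE x := by
  constructor
  · rintro ⟨μ, _, _, g, hg, h⟩
    exact ⟨μ, _, _, g ∘ f, hg.comp hf, by rwa [xt_xt] at h⟩
  · intro h
    obtain ⟨μ, _, _, h⟩ := h.inl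
    have := xt_el (hf.sumMap (injective_id (α := μ))) h
    exact ⟨κ ⊕ μ, _, _, Sum.inl, Sum.inl_injective, by rw [xt_xt] at this ⊢; exact this⟩

lemma SE.mul {x y : Matrix ι ι S} (hx : SE x) (hy : SE y) : SE (x * y) := by
  obtain ⟨κ, _, _, hx⟩ := hx.inl
  obtain ⟨μ, _, _, hy⟩ := hy.inl
  have h1 := xt_el (injective_id.sumMap (Sum.inl_injective (β := μ))) hx
  have h2 := xt_el (injective_id.sumMap (Sum.inr_injective (α := κ))) hy
  rw [xt_xt] at h1 h2
  exact ⟨ι ⊕ κ ⊕ μ, _, _, Sum.inl, Sum.inl_injective, by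
    rw [xt_mul Sum.inl_injective]; exact mul_mem h1 h2⟩

lemma SE.inv {x y : Matrix ι ι S} (hx : SE x) (h : x * y = 1) : SE y := by
  obtain ⟨κ, _, _, f, hf, hx⟩ := hx
  obtain ⟨w, hw, e⟩ := er_inv hx
  refine ⟨κ, inferInstance, inferInstance, f, hf, ?_⟩
  rwa [← one_mul (xt f y), ← e, mul_assoc, ← xt_mul hf, h, xt_one, mul_one]

lemma el_upper (X : Matrix ι κ S) : fromBlocks 1 X 0 1 ∈ El (ι ⊕ κ) S := by
  have := er_of_supp (Set.range Sum.inl) (Set.subset_univ _) (fromBlocks 0 X 0 0 : Matrix _ _ S)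
    (by rintro (p | p) (q | q) h <;> simp at h ⊢)
  rwa [← fromBlocks_one, fromBlocks_add, add_zero, add_zero, zero_add, add_zero] at this

lemma el_lower (Y : Matrix κ ι S) : fromBlocks 1 0 Y 1 ∈ El (ι ⊕ κ) S := by
  have := er_of_supp (Set.range Sum.inr) (Set.subset_univ _) (fromBlocks 0 0 Y 0 : Matrix _ _ S)
    (by rintro (p | p) (q | q) h <;> simp at h ⊢)
  rwa [← fromBlocks_one, fromBlocks_add, add_zero, add_zero, zero_add, add_zero] at this

lemma whitehead (X : Matrix ι κ S) (Y : Matrix κ ι S) {u : Matrix ι ι S}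
    (h : u * (1 + X * Y) = 1) : fromBlocks (1 + X * Y) 0 0 (1 - Y * u * X) ∈ El (ι ⊕ κ) S := by
  have h' := mul_eq_one_comm.mp h
  have := mul_mem (mul_mem (el_lower (-(Y * u))) (mul_mem (el_upper X) (el_lower Y)))
    (el_upper (-(u * X)))
  simp only [fromBlocks_multiply, Matrix.one_mul, Matrix.mul_one, Matrix.zero_mul, zero_add,
    add_zero, Matrix.mul_zero, Matrix.neg_mul, Matrix.mul_neg] at this
  rwa [Matrix.mul_assoc Y u (1 + X * Y), h, ← Matrix.mul_assoc (1 + X * Y), h', Matrix.mul_one,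
    Matrix.one_mul, neg_add_cancel, neg_add_cancel, Matrix.zero_mul, neg_zero, zero_add,
    neg_add_eq_sub] at this

lemma SE.swap (X : Matrix ι κ S) (Y : Matrix κ ι S) (hu : IsUnit (1 + X * Y))
    (h : SE (1 + Y * X)) : SE (1 + X * Y) := by
  obtain ⟨u, hu⟩ := hu.exists_left_inv
  have e : (1 - Y * u * X) * (1 + Y * X) = 1 := by
    have : Y * u * X * (1 + Y * X) = Y * (u * (1 + X * Y)) * X := by
      simp only [Matrix.mul_add, Matrix.add_mul, Matrix.mul_assoc, Matrix.mul_one]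
    rw [sub_mul, this, hu, Matrix.mul_one, one_mul, add_sub_cancel_right]
  have := (se_of_el (whitehead X Y hu)).mul ((se_xt (Sum.inr_injective (α := ι))).mpr h)
  rw [xt_inr, fromBlocks_multiply, e] at this
  refine (se_xt (Sum.inl_injective (β := κ))).mp ?_
  simpa [xt_inl] using this

lemma el_diag {x y : Matrix ι ι S} (h : y * x = 1) : fromBlocks x 0 0 y ∈ El (ι ⊕ ι) S := by
  have := whitehead (x - 1) (1 : Matrix ι ι S) (u := y) (by simpa using h)
  rwa [mul_one, one_mul, add_sub_cancel, mul_sub, h, mul_one, sub_sub_cancel] at this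

variable (ι S) in
/-- The group of stably elementary matrices. -/
def NS : Subgroup (Matrix ι ι S)ˣ where
  carrier := {u | SE u.val}
  one_mem' := se_of_el (one_mem _)
  mul_mem' := SE.mul
  inv_mem' := fun {u} h => SE.inv h u.mul_inv

lemma comm_mem (x y : (Matrix ι ι S)ˣ) : x * y * x⁻¹ * y⁻¹ ∈ NS ι S := by
  have := mul_mem (mul_mem (el_diag x.inv_mul) (el_diag y.inv_mul)) (el_diag (y * x).mul_inv)
  refine (se_xt (Sum.inl_injective (β := ι))).mp (se_of_el ?_)
  simpa [xt_inl, fromBlocks_multiply, mul_assoc] using this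

instance : (NS ι S).Normal :=
  ⟨fun n hn g => by simpa using mul_mem (comm_mem g n) hn⟩

variable (ι S) in
/-- The group of stable classes. -/
def K : Type := (Matrix ι ι S)ˣ ⧸ NS ι S

instance : CommGroup (K ι S) :=
  { QuotientGroup.Quotient.group (NS ι S) with
    mul_comm := by
      rintro ⟨x⟩ ⟨y⟩
      exact QuotientGroup.eq.mpr (by simpa [mul_assoc] using comm_mem y⁻¹ x⁻¹) }

/-- The class of a unit. -/
def clu : (Matrix ι ι S)ˣ →* K ι S := QuotientGroup.mk' (NS ι S)

open Classical in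
/-- The class of a matrix. -/
noncomputable def cl (x : Matrix ι ι S) : K ι S := if h : IsUnit x then clu h.unit else 1

lemma cl_unit (u : (Matrix ι ι S)ˣ) : cl u.val = clu u := by simp [cl]

lemma cl_mul {x y : Matrix ι ι S} (hx : IsUnit x) (hy : IsUnit y) : cl (x * y) = cl x * cl y := by
  obtain ⟨x, rfl⟩ := hx
  obtain ⟨y, rfl⟩ := hy
  rw [← Units.val_mul, cl_unit, cl_unit, cl_unit, map_mul]

lemma cl_pow {x : Matrix ι ι S} (hx : IsUnit x) (n : ℕ) : cl (x ^ n) = cl x ^ n := by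
  obtain ⟨x, rfl⟩ := hx
  rw [← Units.val_pow_eq_pow_val, cl_unit, cl_unit, map_pow]

lemma cl_eq_one {x : Matrix ι ι S} (hx : IsUnit x) : cl x = 1 ↔ SE x := by
  obtain ⟨x, rfl⟩ := hx
  rw [cl_unit]
  exact QuotientGroup.eq_one_iff x

lemma cl_one : cl (1 : Matrix ι ι S) = 1 := (cl_eq_one isUnit_one).mpr (se_of_el (one_mem _))

lemma cl_conj {x y p : Matrix ι ι S} (hx : IsUnit x) (hy : IsUnit y) (hp : IsUnit p)
    (h : x * p = p * y) : cl x = cl y := by
  have := congrArg cl h
  rwa [cl_mul hx hp, cl_mul hp hy, mul_comm, mul_right_inj] at this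

lemma cl_xt {f g : ι → κ} (hf : Injective f) (hg : Injective g) {x : Matrix ι ι S}
    (hx : IsUnit x) : cl (xt f x) = cl (xt g x) := by
  obtain ⟨σ, hσ⟩ := Equiv.Perm.exists_extending_pair f g hf hg
  have e := prj_inc (S := S) σ.injective
  refine (cl_conj (hx.map (xtHom hg)) (hx.map (xtHom hf)) (IsUnit.of_mul_eq_one_right _ e) ?_).symm
  change xt g x * _ = _ * xt f x
  rw [show g = σ ∘ f from (funext hσ).symm, ← xt_xt, xt, add_mul, mul_assoc, e]
  noncomm_ring

omit [Fintype μ] in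
lemma cl_family {f : μ → ι → κ} (hf : ∀ a, Injective (f a))
    (hd : ∀ a b, a ≠ b → ∀ i j, f a i ≠ f b j) {g : ι → κ} (hg : Injective g)
    {x : μ → Matrix ι ι S} (hx : ∀ a, IsUnit (x a)) (T : Finset μ) :
    IsUnit (1 + ∑ a ∈ T, inc S (f a) * (x a - 1) * prj S (f a)) ∧
      cl (1 + ∑ a ∈ T, inc S (f a) * (x a - 1) * prj S (f a)) = ∏ a ∈ T, cl (xt g (x a)) := by
  induction T using Finset.induction_on with
  | empty => simp [cl_one]
  | insert a T ha ih =>
    have e : inc S (f a) * (x a - 1) * prj S (f a) *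
        ∑ a ∈ T, inc S (f a) * (x a - 1) * prj S (f a) = 0 := by
      rw [Finset.mul_sum]
      refine Finset.sum_eq_zero fun b hb => ?_
      have : prj S (f a) * inc S (f b) = 0 := by
        rw [prj_mul]
        ext i j
        exact one_apply_ne (hd a b (fun e => ha (e ▸ hb)) i j)
      simp only [Matrix.mul_assoc]
      rw [← Matrix.mul_assoc (prj S (f a)), this]
      simp
    have e2 : 1 + ∑ a ∈ insert a T, inc S (f a) * (x a - 1) * prj S (f a) =
        xt (f a) (x a) * (1 + ∑ a ∈ T, inc S (f a) * (x a - 1) * prj S (f a)) := by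
      rw [Finset.sum_insert ha, xt, add_mul, mul_add, mul_add, e]
      simp only [one_mul, mul_one, add_zero]
      abel
    have hu : IsUnit (xt (f a) (x a)) := (hx a).map (xtHom (hf a))
    rw [e2, cl_mul hu ih.1, ih.2, Finset.prod_insert ha, cl_xt (hf a) hg (hx a)]
    exact ⟨hu.mul ih.1, rfl⟩

end Pool.Agent.Lib.MP_69ff52_al
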