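import Mathlib

/-! Krylov matrices in Newton form. -/

namespace Pool.Agent.Lib.MP_69ff52_al

open Matrix Polynomial

variable {ι μ A : Type} [CommRing A] [Fintype ι] [DecidableEq ι] [Fintype μ] [DecidableEq μ]

/-- The Krylov vectors. -/
def kv (g : Matrix ι ι A) (t : ℕ → A) (b : ι → A) : ℕ → ι → A
  | 0 => b
  | j + 1 => g *ᵥ kv g t b j - t j • kv g t b j

lemma kv_eq (g : Matrix ι ι A) (t : ℕ → A) (b : ι → A) (j : ℕ) :
    kv g t b j = aeval g (∏ l ∈ Finset.range j, (X - C (t l))) *ᵥ b := by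
  induction j with
  | zero => simp [kv]
  | succ j ih =>
    rw [Finset.prod_range_succ_comm, map_mul, ← mulVec_mulVec, ← ih, kv, map_sub, aeval_X, aeval_C,
      sub_mulVec, Algebra.algebraMap_eq_smul_one, smul_mulVec, one_mulVec]

/-- The Krylov matrix. -/
def Km (s : ℕ) (g : Matrix ι ι A) (t : ℕ → A) (b : ι → A) : Matrix ι (Fin s) A :=
  of fun a j => kv g t b j a

/-- The bidiagonal matrix. -/
def Jm (s : ℕ) (t : ℕ → A) : Matrix (Fin s) (Fin s) A :=
  of fun a b => (if a = b then t b else 0) + if a.val = b.val + 1 then 1 else 0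

lemma mul_Km {s : ℕ} {g : Matrix ι ι A} {t : ℕ → A}
    (h : g.charpoly = ∏ l ∈ Finset.range s, (X - C (t l))) (b : ι → A) :
    g * Km s g t b = Km s g t b * Jm s t := by
  ext a j
  have e1 : (g * Km s g t b) a j = kv g t b (j + 1) a + t j * kv g t b j a := by
    simp [kv, Km, mul_apply, mulVec, dotProduct]
  have e2 : ∑ l : Fin s, kv g t b l a * (if l.val = j.val + 1 then 1 else 0) =
      kv g t b (j + 1) a := by
    by_cases hj : j.val + 1 < s
    · rw [Finset.sum_eq_single ⟨j + 1, hj⟩ (fun l _ hl => by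
        rw [if_neg (fun e => hl (Fin.ext e)), mul_zero]) (by simp)]
      simp
    · rw [show j.val + 1 = s by omega, kv_eq g t b s, ← h, aeval_self_charpoly, zero_mulVec]
      exact Finset.sum_eq_zero fun l _ => by rw [if_neg (by omega), mul_zero]
  rw [e1, ← e2]
  simp only [Km, Jm, mul_apply, of_apply, mul_add, Finset.sum_add_distrib]
  simp [mul_comm, add_comm]

lemma Jm_lower (s : ℕ) (t : ℕ → A) : (Jm s t).IsLowerTriangular := by
  intro a b h
  have h' : a < b := h
  rw [Jm, of_apply, if_neg h'.ne, if_neg (by omega), add_zero]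

lemma det_Jm {s : ℕ} {g : Matrix ι ι A} {t : ℕ → A} (hs : Fintype.card ι = s)
    (h : g.charpoly = ∏ l ∈ Finset.range s, (X - C (t l))) : (Jm s t).det = g.det := by
  rw [det_of_isLowerTriangular _ (Jm_lower s t), det_eq_sign_charpoly_coeff, h,
    coeff_zero_eq_eval_zero, eval_prod, hs, ← Finset.card_range s, ← Finset.prod_const,
    Finset.card_range, ← Finset.prod_mul_distrib, Finset.prod_range]
  simp [Jm]

lemma pow_pair {g g' : Matrix ι ι A} (hg : g' * g = 1) {k : Matrix ι μ A} {c : Matrix μ μ A}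
    (h : g * k = k * c) (θ0 : Matrix μ ι A) (n : ℕ) : ∃ θ : Matrix μ ι A,
      ((1 + k * θ0) * g) ^ n = (1 + k * θ) * g ^ n ∧
        ((1 + θ0 * k) * c) ^ n = (1 + θ * k) * c ^ n := by
  induction n with
  | zero => exact ⟨0, by simp, by simp⟩
  | succ n ih =>
    obtain ⟨θ, h1, h2⟩ := ih
    have e1 : g * (1 + k * θ) = (1 + k * (c * θ * g')) * g := by
      simp only [Matrix.mul_add, Matrix.add_mul, Matrix.mul_assoc, hg, Matrix.mul_one,
        Matrix.one_mul]
      rw [← Matrix.mul_assoc, h, Matrix.mul_assoc]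
    have e2 : c * (1 + θ * k) = (1 + c * θ * g' * k) * c := by
      simp only [Matrix.mul_add, Matrix.add_mul, Matrix.mul_assoc, Matrix.mul_one, Matrix.one_mul]
      rw [← h, ← Matrix.mul_assoc g', hg, Matrix.one_mul]
    refine ⟨θ0 + c * θ * g' + θ0 * k * (c * θ * g'), ?_, ?_⟩
    · rw [pow_succ', h1, mul_assoc, ← mul_assoc g, e1, pow_succ', ← mul_assoc, ← mul_assoc,
        ← mul_assoc]
      simp only [Matrix.mul_add, Matrix.add_mul, Matrix.mul_assoc, Matrix.mul_one, Matrix.one_mul,
        add_assoc]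
    · rw [pow_succ', h2, mul_assoc, ← mul_assoc c, e2, pow_succ', ← mul_assoc, ← mul_assoc,
        ← mul_assoc]
      simp only [Matrix.mul_add, Matrix.add_mul, Matrix.mul_assoc, Matrix.mul_one, Matrix.one_mul,
        add_assoc]

/-- Hessenberg matrices with ones below the diagonal. -/
def Hess {s : ℕ} (H : Matrix (Fin s) (Fin s) A) : Prop :=
  ∀ a b, (b.val + 1 < a.val → H a b = 0) ∧ (a.val = b.val + 1 → H a b = 1)

lemma det_Km {s : ℕ} {H : Matrix (Fin (s + 1)) (Fin (s + 1)) A} (h : Hess H) (t : ℕ → A) :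
    (Km (s + 1) H t (Pi.single 0 1)).det = 1 := by
  have key : ∀ (j : ℕ) (a : Fin (s + 1)), (j < a.val → kv H t (Pi.single 0 1) j a = 0) ∧
      (a.val = j → kv H t (Pi.single 0 1) j a = 1) := by
    intro j
    induction j with
    | zero =>
      refine fun a => ⟨fun ha => Pi.single_eq_of_ne (Fin.pos_iff_ne_zero.mp ha) _, fun ha => ?_⟩
      rw [show a = 0 from Fin.ext ha]
      exact Pi.single_eq_same _ _
    | succ j ih =>
      have e : ∀ (a : Fin (s + 1)) (ha : j < a.val),
          kv H t (Pi.single 0 1) (j + 1) a = H a ⟨j, by omega⟩ := by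
        intro a ha
        rw [kv, Pi.sub_apply, Pi.smul_apply, (ih a).1 ha, smul_zero, sub_zero, mulVec, dotProduct,
          Finset.sum_eq_single ⟨j, by omega⟩ (fun l _ hl => ?_) (by simp), (ih _).2 rfl, mul_one]
        rcases lt_or_gt_of_ne (Fin.val_ne_of_ne hl) with h1 | h1
        · rw [(h a l).1 (by simp only at h1; omega), zero_mul]
        · rw [(ih l).1 h1, mul_zero]
      exact fun a => ⟨fun ha => (e a (by omega)).trans ((h _ _).1 ha),
        fun ha => (e a (by omega)).trans ((h _ _).2 ha)⟩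
  rw [det_of_isUpperTriangular (M := Km (s + 1) H t (Pi.single 0 1)) fun a j h => (key j a).1 h]
  exact Finset.prod_eq_one fun a _ => (key a a).2 rfl

lemma hess_row {s : ℕ} (t : ℕ → A) (q : ι) (c : A) (k : Matrix ι (Fin (s + 1)) A) :
    Hess ((1 + single 0 q c * k) * Jm (s + 1) t) := by
  have e : ∀ a b : Fin (s + 1), 0 < a.val →
      ((1 + single (0 : Fin (s + 1)) q c * k) * Jm (s + 1) t : Matrix _ _ A) a b =
        Jm (s + 1) t a b := fun a b ha => by
    rw [add_mul, one_mul, Matrix.mul_assoc, Matrix.add_apply,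
      single_mul_apply_of_ne _ _ _ _ _ (Fin.pos_iff_ne_zero.mp ha), add_zero]
  refine fun a b => ⟨fun h => ?_, fun h => ?_⟩
  · rw [e a b (by omega), Jm, of_apply, if_neg (by omega), if_neg (by omega), add_zero]
  · rw [e a b (by omega), Jm, of_apply, if_neg (by omega), if_pos h, zero_add]

lemma Km_mul_single {s : ℕ} (g : Matrix ι ι A) (t : ℕ → A) (p q : ι) (c : A) :
    Km (s + 1) g t (Pi.single p 1) * single (0 : Fin (s + 1)) q c = single p q c := by
  ext a b
  by_cases h : b = q
  · subst h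
    simp [Km, kv, single_apply, Pi.single_apply, eq_comm]
  · rw [mul_single_apply_of_ne _ _ _ _ _ h, single_apply_of_ne _ _ _ _ _ fun e => h e.2.symm]

end Pool.Agent.Lib.MP_69ff52_al
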