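import Pool.Agent.Lib.MP_69ff52_al.El
import Pool.Agent.Lib.MP_69ff52_al.Bass

/-! Injective stability for the elementary group. -/

namespace Pool.Agent.Lib.MP_69ff52_al

open Matrix Function

variable {ι κ S : Type} [CommRing S] [Fintype ι] [DecidableEq ι] [Fintype κ] [DecidableEq κ]

omit [DecidableEq ι] [DecidableEq κ] in
lemma sub_mul_sub (e : Option ι ≃ κ) (x y : Matrix κ κ S) (h : ∀ b, y (e none) (e (some b)) = 0) :
    (x * y).submatrix (e ∘ some) (e ∘ some) =
      x.submatrix (e ∘ some) (e ∘ some) * y.submatrix (e ∘ some) (e ∘ some) := by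
  ext a b
  simp only [submatrix_apply, mul_apply, Function.comp]
  rw [← e.sum_comp, Fintype.sum_option, h, mul_zero, zero_add]

lemma row_mul {k : κ} {x : Matrix κ κ S} (h : ∀ q, x k q = (1 : Matrix κ κ S) k q)
    (y : Matrix κ κ S) (q : κ) : (x * y) k q = y k q := by
  simp [mul_apply, h, one_apply]

lemma er_row {k : κ} {x : Matrix κ κ S} (hx : x ∈ Er S {k}ᶜ) (q : κ) :
    x k q = (1 : Matrix κ κ S) k q := by
  induction hx using Submonoid.closure_induction generalizing q with
  | mem x hx =>
    obtain ⟨i, j, c, -, hi, rfl⟩ := hx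
    rw [Matrix.add_apply, single_apply_of_ne _ _ _ _ _ (fun h => hi h.1), add_zero]
  | one => rfl
  | mul x y _ _ hx hy => rw [row_mul hx, hy]

lemma er_block (e : Option ι ≃ κ) {x : Matrix κ κ S} (hx : x ∈ Er S {e none}ᶜ) :
    x.submatrix (e ∘ some) (e ∘ some) ∈ El ι S := by
  have hf : Injective (e ∘ some) := e.injective.comp (Option.some_injective _)
  induction hx using Submonoid.closure_induction with
  | mem x hx =>
    obtain ⟨i, j, c, h, hi, rfl⟩ := hx
    rw [submatrix_add, Pi.add_apply, Pi.add_apply, submatrix_one _ hf]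
    refine er_of_supp {a | e (some a) = i} (Set.subset_univ _) _ fun p q hpq =>
      single_apply_of_ne _ _ _ _ _ ?_
    rintro ⟨rfl, rfl⟩
    exact hpq.elim (fun h => h rfl) fun h' => h (Eq.symm h')
  | one => rw [submatrix_one _ hf]; exact one_mem _
  | mul x y _ hy ihx ihy =>
    rw [sub_mul_sub e x y fun b => (er_row hy _).trans (one_apply_ne (by simp))]
    exact mul_mem ihx ihy

lemma er_le {T : Set κ} : Er S T ≤ El κ S :=
  Submonoid.closure_mono fun _ ⟨i, j, c, h, _, e⟩ => ⟨i, j, c, h, Set.mem_univ i, e⟩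

lemma er_rowv {T : Set κ} {i : κ} (hi : i ∈ T) {w : κ → S} (hw : w i = 0) :
    1 + vecMulVec (Pi.single i 1) w ∈ Er S T := by
  refine er_of_supp {i} (by simpa using hi) _ fun p q h => ?_
  rcases h with h | rfl
  · rw [vecMulVec_apply, Pi.single_eq_of_ne h, zero_mul]
  · rw [vecMulVec_apply, hw, mul_zero]

lemma er_colv {k j : κ} {u : κ → S} (hk : u k = 0) (hu : u j = 0) :
    1 + vecMulVec u (Pi.single j 1) ∈ Er S {k}ᶜ := by
  refine er_of_supp {p | p ≠ k ∧ p ≠ j} (fun p h => h.1) _ fun p q h => ?_
  rcases h with h | h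
  · by_cases h1 : p = k
    · rw [vecMulVec_apply, h1, hk, zero_mul]
    · rw [vecMulVec_apply, not_not.mp fun h2 => h ⟨h1, h2⟩, hu, zero_mul]
  · rw [vecMulVec_apply, Pi.single_eq_of_ne h.2, mul_zero]

lemma colv_mul (u : κ → S) (j : κ) (x : Matrix κ κ S) (p q : κ) :
    ((1 + vecMulVec u (Pi.single j 1)) * x) p q = x p q + u p * x j q := by
  rw [add_mul, one_mul, vecMulVec_mul, single_one_vecMul]
  rfl

lemma rowv_mul {k : κ} {v : κ → S} (hv : v k = 0) (w : κ → S) :
    (1 + vecMulVec (Pi.single k 1) v) * (1 + vecMulVec (Pi.single k 1) w) =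
      1 + vecMulVec (Pi.single k 1) (v + w) := by
  rw [add_mul, one_mul, mul_add, mul_one, vecMulVec_mul_vecMulVec, dotProduct_single_one, hv,
    zero_smul, vecMulVec_zero, vecMulVec_add]
  abel

variable {d : ℕ} (hS : SR S d) (hd : d ≤ Fintype.card ι)
include hS hd

lemma normal_form {r : Matrix (Option (Option ι)) (Option (Option ι)) S}
    (hr : r ∈ Er S {some none}ᶜ) {w : Option (Option ι) → S} (hw : w (some none) = 0)
    {i : Option (Option ι)} (hi : i ≠ some none) :
    ∃ p ∈ Er S {none}ᶜ, ∃ r' ∈ Er S {some none}ᶜ, ∃ w' : Option (Option ι) → S,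
      w' (some none) = 0 ∧ w' i = 0 ∧ r * (1 + vecMulVec (Pi.single (some none) 1) w) =
        p * r' * (1 + vecMulVec (Pi.single (some none) 1) w') := by
  obtain ⟨r0, -, h0⟩ := er_inv hr
  have h1 := congrFun (congrFun h0 i) i
  rw [mul_apply, Fintype.sum_option, Fintype.sum_option, er_row hr, one_apply_ne hi.symm, mul_zero,
    zero_add, one_apply_eq, add_comm] at h1
  obtain ⟨b, y, hy⟩ := hS ι hd _ _ _ _ h1
  let B : Option (Option ι) → S := fun l => l.elim 0 (·.elim 0 b)
  have hB := fun k (h : B k = 0) => er_colv (S := S) (j := none) h rfl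
  obtain ⟨r1, e1⟩ : ∃ r1, r1 = (1 + vecMulVec B (Pi.single none 1)) * r := ⟨_, rfl⟩
  have hr1 : r1 ∈ Er S {some none}ᶜ := e1 ▸ mul_mem (hB _ rfl) hr
  let C : Option (Option ι) → S := fun l => l.elim 0 (·.elim 0 fun a => -r1 (some (some a)) (some none))
  have hC := fun k (h : C k = 0) => er_colv (S := S) (j := some none) h rfl
  obtain ⟨r2, e2⟩ : ∃ r2, r2 = (1 + vecMulVec C (Pi.single (some none) 1)) * r1 := ⟨_, rfl⟩
  have hr2 : r2 ∈ Er S {some none}ᶜ := e2 ▸ mul_mem (hC _ rfl) hr1
  have h2 : ∀ a, r2 (some (some a)) (some none) = 0 := fun a => by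
    rw [e2, colv_mul, er_row hr1, one_apply_eq]
    simp [C]
  have h3 : ∀ a, r2 (some (some a)) i = r (some (some a)) i + b a * r none i := fun a => by
    rw [e2, colv_mul, er_row hr1, one_apply_ne hi.symm, mul_zero, add_zero, e1, colv_mul]
    rfl
  let Y : Option (Option ι) → S := fun l => l.elim 0 (·.elim 0 fun a => -w i * y a)
  have h4 : (Y ᵥ* r2) (some none) = 0 := by simp [vecMul, dotProduct, Y, h2]
  have h5 : (Y ᵥ* r2) i = -w i := by
    simp only [vecMul, dotProduct, Y, Fintype.sum_option, Option.elim, zero_mul, zero_add, h3,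
      mul_assoc, ← Finset.mul_sum, hy, mul_one]
  have h6 : r2 *ᵥ Pi.single (some none) 1 =
      Pi.single (some none) 1 + r2 none (some none) • Pi.single none 1 := by
    rw [mulVec_single_one]
    ext (_ | _ | a)
    · simp
    · simpa using er_row hr2 (some none)
    · simpa using h2 a
  obtain ⟨p, hp, e3⟩ := er_inv (mul_mem (er_rowv (T := {none}ᶜ) (i := some none) (by simp)
    (w := Y) rfl) (mul_mem (hC none rfl) (hB none rfl)))
  refine ⟨p, hp, (1 + vecMulVec (Pi.single none 1) (-r2 none (some none) • Y)) * r2,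
    mul_mem (er_rowv (by simp) (by simp [Y])) hr2, Y ᵥ* r2 + w, by simp [h4, hw], by simp [h5], ?_⟩
  have e4 : (1 + vecMulVec (Pi.single (none : Option (Option ι)) 1) (-r2 none (some none) • Y)) * r2 *
      (1 + vecMulVec (Pi.single (some none : Option (Option ι)) 1) (Y ᵥ* r2)) =
      (1 + vecMulVec (Pi.single (some none : Option (Option ι)) 1) Y) * r2 := by
    simp only [add_mul, mul_add, one_mul, mul_one, vecMulVec_mul, mul_vecMulVec, h6, add_vecMulVec,
      smul_vecMulVec, vecMulVec_smul, neg_smul, vecMulVec_neg, Matrix.neg_mul, Matrix.smul_mul,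
      neg_mulVec, smul_mulVec, vecMulVec_mulVec, dotProduct_single_one, h4, MulOpposite.op_zero,
      zero_smul, smul_zero, neg_zero, zero_vecMulVec]
    abel
  rw [← rowv_mul h4, ← mul_assoc, mul_assoc p, e4, e2, e1]
  simp only [← mul_assoc] at e3 ⊢
  rw [e3, one_mul]

lemma decomp {x : Matrix (Option (Option ι)) (Option (Option ι)) S} (hx : x ∈ El _ S) :
    ∃ p ∈ Er S {none}ᶜ, ∃ r ∈ Er S {some none}ᶜ, ∃ w : Option (Option ι) → S,
      w (some none) = 0 ∧ x = p * r * (1 + vecMulVec (Pi.single (some none) 1) w) := by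
  induction hx using Submonoid.closure_induction_right with
  | one => exact ⟨1, one_mem _, 1, one_mem _, 0, rfl, by simp⟩
  | mul_right x _ y hy ih =>
    obtain ⟨p, hp, r, hr, w, hw, rfl⟩ := ih
    obtain ⟨i, j, c, hij, -, rfl⟩ := hy
    have e0 : single i j c = vecMulVec (Pi.single i 1) (Pi.single j c) := by
      ext a b
      simp [vecMulVec_apply, single_apply, Pi.single_apply, ite_and, eq_comm]
      split_ifs <;> rfl
    by_cases hi : i = some none
    · subst hi
      exact ⟨p, hp, r, hr, w + Pi.single j c, by simp [hw, hij], by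
        rw [e0, mul_assoc, rowv_mul hw]⟩
    by_cases hj : j = some none
    · subst hj
      obtain ⟨p', hp', r', hr', w', h1, h2, e⟩ := normal_form hS hd hr hw hi
      refine ⟨p * p', mul_mem hp hp', _, mul_mem hr' (mul_mem (er_single hij hi c)
        (er_rowv hi (w := -c • w') (by simp [h2]))), w', h1, ?_⟩
      rw [mul_assoc p, e, e0]
      simp only [mul_assoc]
      congr 3
      simp only [add_mul, mul_add, one_mul, mul_one, vecMulVec_mul_vecMulVec, dotProduct_single,
        h2, Pi.smul_apply, h1, Pi.single_eq_same, Pi.single_eq_of_ne hij,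
        mul_zero, zero_smul, smul_zero, vecMulVec_zero]
      rw [neg_smul, vecMulVec_neg]
      abel
    · refine ⟨p, hp, _, mul_mem hr (er_single hij hi c), w ᵥ* (1 + single i j c), ?_, ?_⟩
      · rw [e0, vecMul_add, vecMul_one, vecMul_vecMulVec]
        simp [hw, Ne.symm hj]
      · simp only [mul_assoc]
        congr 2
        rw [add_mul, mul_add (1 + single i j c), vecMulVec_mul, mul_vecMulVec, one_mul, mul_one,
          add_mulVec, one_mulVec, e0, vecMulVec_mulVec]
        simp [hj]

lemma stab_step {x : Matrix (Option ι) (Option ι) S} (hx : xt some x ∈ El _ S) : x ∈ El _ S := by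
  obtain ⟨p, hp, r, hr, w, hw, e⟩ := decomp hS hd hx
  have hf := Option.some_injective (Option ι)
  have hu := er_rowv (T := {none}ᶜ) (i := some none) (by simp) hw
  have h1 : ∀ q, r none q =
      (1 : Matrix (Option (Option ι)) (Option (Option ι)) S) none q := fun q => by
    have h2 := congrArg (· * (1 + vecMulVec (Pi.single (some none) 1) (-w))) e
    have h3 : ∀ q, xt some x none q =
        (1 : Matrix (Option (Option ι)) (Option (Option ι)) S) none q := fun q => by
      simp [xt, mul_apply, inc, one_apply]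
    simp only [mul_assoc, rowv_mul hw, add_neg_cancel, vecMulVec_zero, add_zero, mul_one] at h2
    rw [← row_mul (er_row hp) r, ← h2, row_mul h3]
    exact er_row (er_rowv (by simp) (by simp [hw])) q
  have h4 := congrArg (fun y => y.submatrix (Equiv.refl _ ∘ some) (Equiv.refl _ ∘ some)) e
  rw [sub_mul_sub _ _ _ fun b => (er_row hu _).trans (one_apply_ne (by simp)),
    sub_mul_sub _ _ _ fun b => (h1 _).trans (one_apply_ne (by simp))] at h4
  have h5 : (xt some x).submatrix (Equiv.refl _ ∘ some) (Equiv.refl _ ∘ some) = x := by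
    ext a b
    simp [xt, mul_apply, inc, prj, one_apply]
  rw [← h5, h4]
  refine mul_mem (mul_mem (er_block (Equiv.refl _) hp) ?_) (er_block (Equiv.refl _) hu)
  have h6 := er_block (Equiv.swap none (some none)) (x := r) (by simpa using hr)
  have h7 := mul_mem (er_le (er_colv (k := none) (j := none) (u := fun l : Option ι =>
    l.elim 0 fun a => r (some (some a)) (some none) - r (some (some a)) none) rfl rfl)) h6
  convert h7 using 1
  ext (_ | a) (_ | b) <;>
    simp [colv_mul, h1, er_row hr, Equiv.swap_apply_of_ne_of_ne, one_apply]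

omit hd in
theorem stab (n : ℕ) : ∀ (ι κ : Type) [Fintype ι] [DecidableEq ι] [Fintype κ] [DecidableEq κ]
    (f : ι → κ) (x : Matrix ι ι S), d + 1 ≤ Fintype.card ι → Fintype.card κ = Fintype.card ι + n →
    Injective f → xt f x ∈ El κ S → x ∈ El ι S := by
  induction n with
  | zero =>
    intro ι κ _ _ _ _ f x _ h hf hx
    obtain ⟨g, h1, h2⟩ := bijective_iff_has_inverse.mp
      ((Fintype.bijective_iff_injective_and_card f).mpr ⟨hf, h.symm⟩)
    have := xt_el h2.injective hx
    rwa [xt_xt, h1.id, xt_id] at this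
  | succ n ih =>
    intro ι κ _ _ _ _ f x hd h hf hx
    obtain ⟨k, hk⟩ : ∃ k, k ∉ Set.range f := by
      by_contra hc
      push Not at hc
      have := Fintype.card_le_of_surjective f hc
      omega
    have h1 := ih (Option ι) κ (fun a => a.elim k f) (xt some x) (by simp; omega) (by simp; omega)
      (Option.injective_iff.mpr ⟨hf, hk⟩) (by rw [xt_xt]; exact hx)
    obtain ⟨i⟩ : Nonempty ι := Fintype.card_pos_iff.mp (by omega)
    let e := Equiv.optionSubtypeNe i
    have h2 := Fintype.card_congr e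
    have h3 := xt_el (Option.map_injective e.symm.injective) h1
    have h4 := xt_el e.injective (stab_step hS (ι := {b // b ≠ i}) (x := xt e.symm x)
      (by rw [Fintype.card_option] at h2; omega) (by rw [xt_xt] at h3 ⊢; exact h3))
    rwa [xt_xt, e.self_comp_symm, xt_id] at h4

omit hd in
theorem SE.el (hd : d + 1 ≤ Fintype.card ι) {x : Matrix ι ι S} (h : SE x) : x ∈ El ι S := by
  obtain ⟨κ, _, _, f, hf, h⟩ := h
  have := Fintype.card_le_of_injective f hf
  exact stab hS (Fintype.card κ - Fintype.card ι) ι κ f x hd (by omega) hf h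

end Pool.Agent.Lib.MP_69ff52_al
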