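import Pool.Agent.Lib.MP_69ff52_al.Tr
import Pool.Agent.Lib.MP_69ff52_al.Kry
import Pool.Agent.Lib.MP_69ff52_al.Stab

/-! Powers with varying exponents over a product of rings. -/

namespace Pool.Agent.Lib.MP_69ff52_al

open Matrix Function Polynomial

section asm
variable {ι κ μ I : Type} {A : I → Type} [∀ i, CommRing (A i)]

/-- A family of matrices as a matrix over the product ring. -/
def asm (x : ∀ i, Matrix ι κ (A i)) : Matrix ι κ (∀ i, A i) := of fun a b i => x i a b

lemma asm_mul [Fintype κ] (x : ∀ i, Matrix ι κ (A i)) (y : ∀ i, Matrix κ μ (A i)) :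
    asm (fun i => x i * y i) = asm x * asm y := by
  ext a b i
  simp [asm, mul_apply]

lemma asm_add (x y : ∀ i, Matrix ι κ (A i)) : asm (fun i => x i + y i) = asm x + asm y := rfl

lemma asm_one [DecidableEq ι] : asm (fun i => (1 : Matrix ι ι (A i))) = 1 := by
  ext a b i
  by_cases h : a = b <;> simp [asm, one_apply, h]

variable [Fintype ι] [DecidableEq ι]

lemma asm_pow (x : ∀ i, Matrix ι ι (A i)) (n : ℕ) : asm (fun i => x i ^ n) = asm x ^ n := by
  induction n with
  | zero => simpa using asm_one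
  | succ n ih => simp only [pow_succ, asm_mul, ih]

lemma det_asm {x : ∀ i, Matrix ι ι (A i)} (h : ∀ i, (x i).det = 1) : (asm x).det = 1 :=
  funext fun i => ((Pi.evalRingHom A i).map_det (asm x)).trans (h i)

lemma unit_of_det {S : Type} [CommRing S] {x : Matrix ι ι S} (h : x.det = 1) : IsUnit x :=
  (isUnit_iff_isUnit_det x).mpr (h ▸ isUnit_one)

lemma unit_asm {x : ∀ i, Matrix ι ι (A i)} (h : ∀ i, (x i).det = 1) (k : I → ℕ) :
    IsUnit (asm fun i => x i ^ k i) := unit_of_det (det_asm fun i => by rw [det_pow, h, one_pow])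

lemma el_pi {x : Matrix ι ι (∀ i, A i)} (hx : x ∈ El ι _) : ∃ N : ℕ, ∀ i,
    ∃ l : List (SpecialLinearGroup ι (A i)), l.length ≤ N ∧
      (∀ y ∈ l, ∃ p q c, p ≠ q ∧ y.1 = 1 + single p q c) ∧
        l.prod.1 = x.map (Pi.evalRingHom A i) := by
  induction hx using Submonoid.closure_induction with
  | mem x hx =>
    obtain ⟨p, q, c, h, -, rfl⟩ := hx
    refine ⟨1, fun i => ⟨[⟨1 + single p q (c i), det_transvection_of_ne p q h _⟩], le_rfl,
      by simpa using ⟨p, q, h, _, rfl⟩, ?_⟩⟩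
    rw [Matrix.map_add _ (map_add _), Matrix.map_one _ (map_zero _) (map_one _), map_single]
    simp
  | one => exact ⟨0, fun i => ⟨[], le_rfl, by simp, by simp⟩⟩
  | mul x y _ _ hx hy =>
    obtain ⟨M, hM⟩ := hx
    obtain ⟨N, hN⟩ := hy
    refine ⟨M + N, fun i => ?_⟩
    obtain ⟨l, h1, h2, h3⟩ := hM i
    obtain ⟨l', h4, h5, h6⟩ := hN i
    exact ⟨l ++ l', by simpa using add_le_add h1 h4,
      fun y hy => (List.mem_append.mp hy).elim (h2 y) (h5 y), by
        rw [List.prod_append, Matrix.map_mul, ← h3, ← h6]; rfl⟩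

end asm

theorem fam_split (s : ℕ) : ∃ r : ℕ, 0 < r ∧ ∀ (I : Type) (A : I → Type) [∀ i, CommRing (A i)]
    [∀ i, Nontrivial (A i)] (ι : Type) [Fintype ι] [DecidableEq ι] (g : ∀ i, Matrix ι ι (A i)),
    Fintype.card ι = s → ∃ (B : I → Type) (_ : ∀ i, CommRing (B i)) (_ : ∀ i, Nontrivial (B i))
      (φ : ∀ i, A i →+* B i) (t : ∀ i, ℕ → B i),
      (∀ i, ((g i).map (φ i)).charpoly = ∏ l ∈ Finset.range s, (X - C (t i l))) ∧
      ∀ x : ∀ i, Matrix ι ι (A i), IsUnit (asm x) → SE (asm fun i => (x i).map (φ i)) →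
        SE (asm x ^ r) := by
  obtain ⟨r, _, _, _, h⟩ := exists_split s
  refine ⟨Fintype.card r, Fintype.card_pos, fun I A _ _ ι _ _ g hs => ?_⟩
  choose B inst φ ρ t h1 h2 using fun i => h (A i) (g i).charpoly (charpoly_monic _)
    (by rw [charpoly_natDegree_eq_dim, hs])
  refine ⟨B, inst, fun i => (ρ i).domain_nontrivial, φ, t, fun i => by rw [charpoly_map, h2],
    fun x hx hs => ?_⟩
  let P : (∀ i, B i) →+* Matrix r r (∀ i, A i) :=
    { toFun := fun c => asm fun i => ρ i (c i)
      map_one' := by simpa using asm_one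
      map_mul' := fun c d => by simp [asm_mul]
      map_zero' := by ext; simp [asm]
      map_add' := fun c d => by simp [asm_add] }
  refine transfer P (φ := RingHom.pi fun i => (φ i).comp (Pi.evalRingHom A i)) (fun a => ?_) hx hs
  ext p q i
  change ρ i (φ i (a i)) p q = _
  by_cases hpq : p = q <;> simp [h1, hpq]

theorem hess_se (s : ℕ) : ∃ r : ℕ, 0 < r ∧ ∀ (I : Type) (A : I → Type) [∀ i, CommRing (A i)]
    [∀ i, Nontrivial (A i)] (H : ∀ i, Matrix (Fin (s + 1)) (Fin (s + 1)) (A i)),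
    (∀ i, Hess (H i)) → (∀ i, (H i).det = 1) → ∀ k : I → ℕ, SE (asm (fun i => H i ^ k i) ^ r) := by
  obtain ⟨r, hr, h⟩ := fam_split (s + 1)
  refine ⟨r, hr, fun I A _ _ H h1 h2 k => ?_⟩
  obtain ⟨B, _, _, φ, t, h3, h4⟩ := h I A _ H (Fintype.card_fin _)
  refine h4 _ (unit_asm h2 k) ?_
  have d1 : ∀ i, ((H i).map (φ i)).det = 1 := fun i => by
    rw [← RingHom.mapMatrix_apply, ← RingHom.map_det, h2, map_one]
  have d2 : ∀ i, (Jm (s + 1) (t i)).det = 1 := fun i =>
    (det_Jm (Fintype.card_fin _) (h3 i)).trans (d1 i)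
  have d3 := fun i => det_Km (H := (H i).map (φ i)) (fun a b =>
    ⟨fun e => by simp [(h1 i a b).1 e], fun e => by simp [(h1 i a b).2 e]⟩) (t i)
  have e := cl_conj (unit_asm d1 k) (unit_asm d2 k) (unit_of_det (det_asm d3)) (by
    rw [← asm_mul, ← asm_mul]
    exact congrArg asm (funext fun i =>
      (SemiconjBy.pow_right (mul_Km (h3 i) _).symm (k i)).eq.symm))
  simp only [Matrix.map_pow]
  rw [← cl_eq_one (unit_asm d1 k), e, cl_eq_one (unit_asm d2 k)]
  exact se_lower (fun a b hab => funext fun i => (Jm_lower _ (t i)).pow (k i) hab)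
    (det_asm fun i => by rw [det_pow, d2, one_pow])

variable {ι I : Type} [Fintype ι] [DecidableEq ι] {A : I → Type} [∀ i, CommRing (A i)]
  [∀ i, Nontrivial (A i)]

theorem cl_pow_mul {g : ∀ i, Matrix ι ι (A i)} (hg : ∀ i, (g i).det = 1) {p q : ι} (hpq : p ≠ q)
    (c : ∀ i, A i) : ∃ r : ℕ, 0 < r ∧ ∀ k : I → ℕ,
      cl (asm fun i => ((1 + single p q (c i)) * g i) ^ (k i * r)) =
        cl (asm fun i => g i ^ (k i * r)) := by
  obtain ⟨s, hs⟩ := Nat.exists_eq_succ_of_ne_zero (Fintype.card_pos_iff.mpr ⟨p⟩).ne'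
  obtain ⟨r1, hr1, h1⟩ := hess_se s
  obtain ⟨r2, hr2, h2⟩ := fam_split (s + 1)
  obtain ⟨B, _, _, φ, t, h3, h4⟩ := h2 I A ι g hs
  refine ⟨r1 * r2, Nat.mul_pos hr1 hr2, fun k => ?_⟩
  have d0 : ∀ {S : Type} [CommRing S] (c : S), (1 + single p q c).det = 1 := fun c =>
    det_transvection_of_ne p q hpq c
  have dh : ∀ i, ((1 + single p q (c i)) * g i).det = 1 := fun i => by rw [det_mul, d0, hg, one_mul]
  have d1 : ∀ i, ((g i).map (φ i)).det = 1 := fun i => by
    rw [← RingHom.mapMatrix_apply, ← RingHom.map_det, hg, map_one]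
  have d2 : ∀ i, (Jm (s + 1) (t i)).det = 1 := fun i => (det_Jm hs (h3 i)).trans (d1 i)
  choose θ e1 e2 using fun i => pow_pair (unit_of_det (d1 i)).exists_left_inv.choose_spec
    (mul_Km (h3 i) (Pi.single p 1)) (single 0 q (φ i (c i))) (k i * r1)
  have d3 : ∀ i, ((1 + single (0 : Fin (s + 1)) q (φ i (c i)) *
      Km (s + 1) ((g i).map (φ i)) (t i) (Pi.single p 1)) * Jm (s + 1) (t i)).det = 1 := fun i => by
    rw [det_mul, d2, mul_one, det_one_add_mul_comm, Km_mul_single, d0]
  have d4 : ∀ i, (1 + θ i * Km (s + 1) ((g i).map (φ i)) (t i) (Pi.single p 1)).det = 1 :=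
    fun i => by simpa [d2, d3] using (congrArg det (e2 i)).symm
  have s1 := h1 I B _ (fun i => hess_row (t i) q (φ i (c i)) _) d3 k
  have s2 : SE (asm fun i => Jm (s + 1) (t i) ^ (k i * r1)) :=
    se_lower (fun a b hab => funext fun i => (Jm_lower _ (t i)).pow _ hab)
      (det_asm fun i => by rw [det_pow, d2, one_pow])
  rw [← asm_pow] at s1
  simp only [← pow_mul, e2] at s1
  rw [asm_mul, ← cl_eq_one ((unit_of_det (det_asm d4)).mul (unit_asm d2 _)),
    cl_mul (unit_of_det (det_asm d4)) (unit_asm d2 _), (cl_eq_one (unit_asm d2 _)).mpr s2, mul_one,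
    cl_eq_one (unit_of_det (det_asm d4)), asm_add, asm_mul, asm_one] at s1
  have s3 := SE.swap _ _ (by
    rw [← asm_mul, ← asm_one, ← asm_add]
    exact unit_of_det (det_asm fun i => by rw [det_one_add_mul_comm, d4])) s1
  choose y hy using fun i => ((unit_of_det (hg i)).pow (k i * r1)).exists_right_inv
  have dy : ∀ i, (((1 + single p q (c i)) * g i) ^ (k i * r1) * y i).det = 1 := fun i => by
    simpa [dh, hg] using congrArg det (hy i)
  have s4 := h4 _ (unit_of_det (det_asm dy)) (by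
    convert s3 using 1
    rw [← asm_mul, ← asm_one, ← asm_add]
    refine congrArg asm (funext fun i => ?_)
    have := e1 i
    rw [Km_mul_single] at this
    rw [Matrix.map_mul, Matrix.map_pow, Matrix.map_mul, Matrix.map_add _ (map_add _),
      Matrix.map_one _ (map_zero _) (map_one _), map_single, this, mul_assoc, ← Matrix.map_pow,
      ← Matrix.map_mul, hy, Matrix.map_one _ (map_zero _) (map_one _), mul_one])
  have e3 : (asm fun i => ((1 + single p q (c i)) * g i) ^ (k i * r1)) =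
      (asm fun i => ((1 + single p q (c i)) * g i) ^ (k i * r1) * y i) *
        asm fun i => g i ^ (k i * r1) := by
    rw [← asm_mul]
    simp only [mul_assoc, mul_eq_one_comm.mp (hy _), mul_one]
  rw [← cl_eq_one ((unit_of_det (det_asm dy)).pow _), cl_pow (unit_of_det (det_asm dy))] at s4
  simp only [← mul_assoc, pow_mul _ _ r2, asm_pow]
  rw [cl_pow (unit_asm dh _), cl_pow (unit_asm hg _), e3,
    cl_mul (unit_of_det (det_asm dy)) (unit_asm hg _), mul_pow, s4, one_mul]

theorem cl_pow_single {g : ∀ i, Matrix ι ι (A i)} (hg : ∀ i, (g i).det = 1) {p q : ι}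
    (hpq : p ≠ q) (c : ∀ i, A i) (k : I → ℕ) :
    cl (asm fun i => ((1 + single p q (c i)) * g i) ^ k i) = cl (asm fun i => g i ^ k i) := by
  obtain ⟨r, hr, h⟩ := cl_pow_mul hg hpq c
  have dh : ∀ i, ((1 + single p q (c i)) * g i).det = 1 := fun i => by
    rw [det_mul, hg, mul_one]
    exact det_transvection_of_ne p q hpq _
  have hadd : ∀ k k' : I → ℕ,
      cl (asm fun i => ((1 + single p q (c i)) * g i) ^ k i) = cl (asm fun i => g i ^ k i) →
      cl (asm fun i => ((1 + single p q (c i)) * g i) ^ k' i) = cl (asm fun i => g i ^ k' i) →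
      cl (asm fun i => ((1 + single p q (c i)) * g i) ^ (k i + k' i)) =
        cl (asm fun i => g i ^ (k i + k' i)) := fun k k' h h' => by
    simp only [pow_add, asm_mul]
    rw [cl_mul (unit_asm dh _) (unit_asm dh _), cl_mul (unit_asm hg _) (unit_asm hg _), h, h']
  have hb : ∀ (m : ℕ) (k : I → ℕ), (∀ i, k i ≤ m) →
      cl (asm fun i => ((1 + single p q (c i)) * g i) ^ k i) = cl (asm fun i => g i ^ k i) := by
    intro m
    induction m with
    | zero => exact fun k hk => by simp [Nat.le_zero.mp (hk _)]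
    | succ m ih =>
      intro k hk
      have h1 := er_single (T := Set.univ) hpq (Set.mem_univ _) fun i => if k i = 0 then 0 else c i
      have e : (asm fun i => ((1 + single p q (c i)) * g i) ^ min (k i) 1) =
          (1 + single p q fun i => if k i = 0 then 0 else c i) * asm fun i => g i ^ min (k i) 1 := by
        have : (1 + single p q fun i => if k i = 0 then 0 else c i) =
            asm fun i => 1 + single p q (if k i = 0 then 0 else c i) := by
          rw [asm_add, asm_one]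
          congr 1
          ext a b i
          by_cases hab : p = a ∧ q = b <;> simp [asm, single_apply, hab]
        rw [this, ← asm_mul]
        refine congrArg asm (funext fun i => ?_)
        by_cases hi : k i = 0
        · simp [hi]
        · simp [hi, show min (k i) 1 = 1 by omega]
      have := hadd (fun i => k i - 1) (fun i => min (k i) 1) (ih _ fun i => by have := hk i; omega)
        (by rw [e, cl_mul (unit_of_det (er_det h1)) (unit_asm hg _),
          (cl_eq_one (unit_of_det (er_det h1))).mpr (se_of_el h1), one_mul])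
      simpa only [show ∀ n : ℕ, n - 1 + min n 1 = n from fun n => by omega] using this
  simpa only [Nat.div_add_mod'] using hadd _ _ (h fun i => k i / r)
    (hb r (fun i => k i % r) fun i => (Nat.mod_lt _ hr).le)

theorem cl_pow_el {w : Matrix ι ι (∀ i, A i)} (hw : w ∈ El ι _) (k : I → ℕ)
    (g : ∀ i, Matrix ι ι (A i)) (hg : ∀ i, (g i).det = 1) :
    cl (asm fun i => (w.map (Pi.evalRingHom A i) * g i) ^ k i) = cl (asm fun i => g i ^ k i) := by
  induction hw using Submonoid.closure_induction generalizing g with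
  | mem x hx =>
    obtain ⟨p, q, c, h, -, rfl⟩ := hx
    simp only [Matrix.map_add _ (map_add _), Matrix.map_one _ (map_zero _) (map_one _), map_single]
    exact cl_pow_single hg h c k
  | one => simp
  | mul x y _ hy ihx ihy =>
    simp only [Matrix.map_mul, mul_assoc]
    rw [ihx _ fun i => by
      rw [det_mul, hg, mul_one, ← RingHom.mapMatrix_apply, ← RingHom.map_det, er_det hy, map_one],
      ihy g hg]

theorem se_mul_pow {g h y : ∀ i, Matrix ι ι (A i)} (hg : ∀ i, (g i).det = 1)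
    (hh : ∀ i, (h i).det = 1) (k : I → ℕ)
    (hy : (∀ i, g i ^ k i * h i ^ k i * y i = 1) ∨ ∀ i, h i ^ k i * g i ^ k i * y i = 1) :
    SE (asm fun i => (g i * h i) ^ k i * y i) := by
  choose g' hg' using fun i => (unit_of_det (hg i)).exists_left_inv
  have hw := el_diag (x := asm g) (y := asm g') (by rw [← asm_mul]; simp only [hg', asm_one])
  have h1 := cl_pow_el hw k (fun i => fromBlocks (h i) 0 0 (g i)) fun i => by
    rw [det_fromBlocks_zero₂₁, hg, hh, one_mul]
  have e0 : ∀ a b : ∀ i, Matrix ι ι (A i), (asm fun i => fromBlocks (a i) 0 0 (b i)) =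
      xt Sum.inl (asm a) * xt Sum.inr (asm b) := fun a b => by
    rw [xt_inl, xt_inr, fromBlocks_multiply]
    simp only [mul_one, one_mul, mul_zero, zero_mul, add_zero, zero_add]
    ext (p | p) (q | q) i <;> rfl
  have e1 : ∀ i, (fromBlocks (asm g) 0 0 (asm g')).map (Pi.evalRingHom A i) =
      fromBlocks (g i) 0 0 (g' i) := fun i => by
    ext (p | p) (q | q) <;> rfl
  have l := Sum.inl_injective (α := ι) (β := ι)
  have u : ∀ {x : Matrix ι ι (∀ i, A i)}, IsUnit x → IsUnit (xt (Sum.inl : ι → ι ⊕ ι) x) :=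
    fun hx => hx.map (xtHom l)
  have dgh : ∀ i, (g i * h i).det = 1 := fun i => by rw [det_mul, hg, hh, one_mul]
  have uy : IsUnit (asm y) := unit_of_det (det_asm fun i => by
    rcases hy with hy | hy <;> simpa [hg, hh] using congrArg det (hy i))
  simp only [e1, fromBlocks_multiply, mul_zero, zero_mul, add_zero, zero_add, hg',
    fromBlocks_diagonal_pow, one_pow, e0, asm_one, xt_one, mul_one] at h1
  rw [cl_mul (y := xt Sum.inr _) (u (unit_asm hh k))
      ((unit_asm hg k).map (xtHom Sum.inr_injective)),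
    cl_xt Sum.inr_injective l (unit_asm hg k)] at h1
  rw [← se_xt l, asm_mul, ← cl_eq_one (u ((unit_asm dgh k).mul uy)), xt_mul l,
    cl_mul (u (unit_asm dgh k)) (u uy), h1]
  rcases hy with hy | hy
  · rw [mul_comm (cl (xt _ (asm fun i => h i ^ k i))),
      ← cl_mul (u (unit_asm hg k)) (u (unit_asm hh k)), ← xt_mul l,
      ← cl_mul (u ((unit_asm hg k).mul (unit_asm hh k))) (u uy), ← xt_mul l, ← asm_mul, ← asm_mul]
    simp only [hy, asm_one, xt_one, cl_one]
  · rw [← cl_mul (u (unit_asm hh k)) (u (unit_asm hg k)), ← xt_mul l,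
      ← cl_mul (u ((unit_asm hh k).mul (unit_asm hg k))) (u uy), ← xt_mul l, ← asm_mul, ← asm_mul]
    simp only [hy, asm_one, xt_one, cl_one]

/-- Uniform bound over a ring with a stable range condition. -/
theorem bounded_mul_pow {R : Type} [CommRing R] [Nontrivial R] {d : ℕ} (hS : SR R d)
    (hd : d + 1 ≤ Fintype.card ι) : ∃ N : ℕ, ∀ (g h : SpecialLinearGroup ι R) (k : ℤ),
      ∃ l : List (SpecialLinearGroup ι R), l.length ≤ N ∧
        (∀ y ∈ l, ∃ p q c, p ≠ q ∧ y.1 = 1 + single p q c) ∧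
          (g * h) ^ k = l.prod * (g ^ k * h ^ k) := by
  let J := SpecialLinearGroup ι R × SpecialLinearGroup ι R × ℕ
  obtain ⟨M, hM⟩ := el_pi (SE.el (hS.pi J) hd (se_mul_pow (A := fun _ : J => R)
    (y := fun i => (i.1 ^ i.2.2 * i.2.1 ^ i.2.2)⁻¹.1) (fun i => i.1.2) (fun i => i.2.1.2)
    (fun i => i.2.2) (Or.inl fun i => congrArg Subtype.val
      (mul_inv_cancel (i.1 ^ i.2.2 * i.2.1 ^ i.2.2)))))
  obtain ⟨N, hN⟩ := el_pi (SE.el (hS.pi J) hd (se_mul_pow (A := fun _ : J => R)
    (y := fun i => (i.2.1 ^ i.2.2 * i.1 ^ i.2.2)⁻¹.1) (fun i => i.1.2) (fun i => i.2.1.2)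
    (fun i => i.2.2) (Or.inr fun i => congrArg Subtype.val
      (mul_inv_cancel (i.2.1 ^ i.2.2 * i.1 ^ i.2.2)))))
  refine ⟨M + N, fun g h k => ?_⟩
  obtain ⟨n, rfl | rfl⟩ := k.eq_nat_or_neg
  · obtain ⟨l, h1, h2, h3⟩ := hM (g, h, n)
    have h4 : l.prod = (g * h) ^ n * (g ^ n * h ^ n)⁻¹ := Subtype.ext h3
    exact ⟨l, by omega, h2, by simp only [h4, zpow_natCast, inv_mul_cancel_right]⟩
  · obtain ⟨l, h1, h2, h3⟩ := hN (h⁻¹, g⁻¹, n)
    have h4 : l.prod = (h⁻¹ * g⁻¹) ^ n * (g⁻¹ ^ n * h⁻¹ ^ n)⁻¹ := Subtype.ext h3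
    exact ⟨l, by omega, h2, by
      simp only [h4, _root_.zpow_neg, zpow_natCast, ← inv_pow, _root_.mul_inv_rev g h,
        inv_mul_cancel_right]⟩

end Pool.Agent.Lib.MP_69ff52_al
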