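import Pool.Agent.Lib.MP_69ff52_al.El

/-! Triangular matrices, the transfer along a finite free extension, and splitting rings. -/

namespace Pool.Agent.Lib.MP_69ff52_al

open Matrix Function Polynomial

variable {ι κ μ r S S' : Type} [CommRing S] [CommRing S'] [Fintype ι] [DecidableEq ι] [Fintype κ]
  [DecidableEq κ] [Fintype μ] [DecidableEq μ] [Fintype r] [DecidableEq r]

lemma se_diagonal {d : ι → S} (h : ∏ i, d i = 1) : SE (diagonal d) := by
  rcases isEmpty_or_nonempty ι with h0 | ⟨⟨i0⟩⟩
  · rw [Subsingleton.elim (diagonal d) 1]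
    exact se_of_el (one_mem _)
  have hu : ∀ i, IsUnit (d i) := fun i =>
    isUnit_of_dvd_one (h ▸ Finset.dvd_prod_of_mem d (Finset.mem_univ i))
  have hg : Injective fun _ : Unit => i0 := fun _ _ _ => rfl
  obtain ⟨h1, h2⟩ := cl_family (f := fun (a : ι) (_ : Unit) => a) (fun _ _ _ _ => rfl)
    (fun a b h _ _ => h) hg (x := fun a => scalar Unit (d a)) (fun a => (hu a).map _) Finset.univ
  have e : 1 + ∑ a, inc S (fun _ : Unit => a) * (scalar Unit (d a) - 1) *
      prj S (fun _ : Unit => a) = diagonal d := by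
    ext p q
    simp only [Matrix.add_apply, Matrix.sum_apply, mul_apply, inc, prj, one_apply, diagonal_apply]
    by_cases hpq : p = q
    · subst hpq
      simp [one_apply]
    · simp [hpq, one_apply]
  rw [e] at h1 h2
  rw [← cl_eq_one h1, h2]
  let ψ : Sˣ →* K ι S := clu.comp (Units.map ((xtHom hg).comp (scalar Unit : S →+* _).toMonoidHom))
  have e2 : ∀ a, cl (xt (fun _ : Unit => i0) (scalar Unit (d a))) = ψ (hu a).unit := fun a =>
    cl_unit (Units.map ((xtHom hg).comp (scalar Unit : S →+* _).toMonoidHom) (hu a).unit)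
  simp only [e2]
  rw [← map_prod, show ∏ a, (hu a).unit = 1 from Units.ext (by simpa using h), map_one]

lemma el_unitri [LinearOrder ι] {N : Matrix ι ι S} (h : ∀ a b, a ≤ b → N a b = 0) :
    1 + N ∈ El ι S := by
  have key : ∀ T : Finset ι, 1 + (of fun p q => if p ∈ T then N p q else 0) ∈ El ι S := by
    intro T
    induction T using Finset.induction_on_min with
    | empty => exact er_of_supp ∅ (Set.subset_univ _) _ (by simp)
    | insert a T ha ih =>
      have h1 := er_of_supp {a} (Set.subset_univ _) (of fun p q => if p = a then N p q else 0)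
        (by
          rintro p q (hp | rfl)
          · exact if_neg hp
          · rw [of_apply]
            split_ifs with hp
            · exact h _ _ hp.le
            · rfl)
      have e : (of fun p q => if p = a then N p q else 0 : Matrix ι ι S) *
          (of fun p q => if p ∈ T then N p q else 0 : Matrix ι ι S) = 0 := by
        ext p q
        rw [mul_apply]
        refine Finset.sum_eq_zero fun l _ => ?_
        rw [of_apply, of_apply]
        split_ifs with h2 h3
        · rw [h p l (h2 ▸ (ha l h3).le), zero_mul]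
        all_goals simp
      have := mul_mem h1 ih
      rw [add_mul, mul_add, mul_add, e, one_mul, one_mul, mul_one, add_zero, add_assoc] at this
      convert this using 2
      ext p q
      by_cases h2 : p = a
      · subst h2
        simp [show p ∉ T from fun h3 => lt_irrefl _ (ha p h3)]
      · simp [h2]
  convert key Finset.univ using 2
  ext p q
  simp

lemma se_lower [LinearOrder ι] {T : Matrix ι ι S} (h : T.IsLowerTriangular) (hd : T.det = 1) :
    SE T := by
  rw [det_of_isLowerTriangular T h] at hd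
  have hu : ∀ i, ∃ y, T i i * y = 1 := fun i =>
    (isUnit_of_dvd_one (hd ▸ Finset.dvd_prod_of_mem _ (Finset.mem_univ i))).exists_right_inv
  choose y hy using hu
  have h1 := el_unitri (N := diagonal y * T - 1) fun a b hab => by
    rw [Matrix.sub_apply, diagonal_mul]
    rcases hab.eq_or_lt with rfl | hab
    · rw [mul_comm, hy, one_apply_eq, sub_self]
    · rw [h hab, one_apply_ne hab.ne, mul_zero, sub_self]
  have := (se_diagonal hd).mul (se_of_el h1)
  rwa [add_sub_cancel, ← mul_assoc, diagonal_mul_diagonal, funext hy, diagonal_one,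
    one_mul] at this

/-- Replace every entry by a block. -/
def tr (ρ : S' →+* Matrix r r S) (x : Matrix ι κ S') : Matrix (ι × r) (κ × r) S :=
  of fun p q => ρ (x p.1 q.1) p.2 q.2

variable (ρ : S' →+* Matrix r r S)

omit [Fintype ι] [DecidableEq ι] [DecidableEq κ] [Fintype μ] [DecidableEq μ] in
lemma tr_mul (x : Matrix ι κ S') (y : Matrix κ μ S') : tr ρ (x * y) = tr ρ x * tr ρ y := by
  ext p q
  simp [tr, mul_apply, Fintype.sum_prod_type, Matrix.sum_apply]

omit [Fintype ι] [Fintype κ] [DecidableEq ι] in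
lemma tr_inc (f : ι → κ) : tr ρ (inc S' f) = inc S (Prod.map f id) := by
  ext ⟨p, a⟩ ⟨q, b⟩
  by_cases h : p = f q <;> simp [tr, inc, one_apply, h]

omit [Fintype ι] [Fintype κ] [DecidableEq ι] in
lemma tr_prj (f : ι → κ) : tr ρ (prj S' f) = prj S (Prod.map f id) := by
  ext ⟨p, a⟩ ⟨q, b⟩
  by_cases h : f p = q <;> simp [tr, prj, one_apply, h]

variable (ι) in
/-- The transfer as a ring homomorphism. -/
def trHom : Matrix ι ι S' →+* Matrix (ι × r) (ι × r) S where
  toFun := tr ρ
  map_one' := by simpa [inc] using tr_inc ρ (id : ι → ι)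
  map_mul' := tr_mul ρ
  map_zero' := by ext; simp [tr]
  map_add' x y := by ext; simp [tr]

lemma tr_xt (f : ι → κ) (x : Matrix ι ι S') : tr ρ (xt f x) = xt (Prod.map f id) (tr ρ x) := by
  have h1 := (trHom κ ρ).map_add 1 (inc S' f * (x - 1) * prj S' f)
  have h2 := (trHom ι ρ).map_sub x 1
  rw [map_one] at h1 h2
  refine h1.trans ?_
  change 1 + tr ρ _ = _
  rw [tr_mul, tr_mul, tr_inc, tr_prj, show tr ρ (x - 1) = tr ρ x - 1 from h2, xt]

lemma tr_el {x : Matrix ι ι S'} (hx : x ∈ El ι S') : tr ρ x ∈ El (ι × r) S := by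
  induction hx using Submonoid.closure_induction with
  | mem x hx =>
    obtain ⟨i, j, c, h, -, rfl⟩ := hx
    have h1 := (trHom ι ρ).map_add 1 (single i j c)
    rw [map_one] at h1
    rw [show tr ρ (1 + single i j c) = _ from h1]
    refine er_of_supp {p : ι × r | p.1 = i} (Set.subset_univ _) _ fun p q hpq => ?_
    change ρ (single i j c p.1 q.1) p.2 q.2 = 0
    rw [single_apply_of_ne, map_zero, Matrix.zero_apply]
    rintro ⟨rfl, rfl⟩
    exact hpq.elim (fun h => h rfl) fun h' => h (Eq.symm h')
  | one => rw [show tr ρ 1 = 1 from (trHom ι ρ).map_one]; exact one_mem _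
  | mul x y _ _ hx hy => rw [tr_mul]; exact mul_mem hx hy

lemma transfer [Nonempty r] {φ : S →+* S'} (h : ∀ a, ρ (φ a) = scalar r a) {x : Matrix ι ι S}
    (hx : IsUnit x) (hs : SE (x.map φ)) : SE (x ^ Fintype.card r) := by
  obtain ⟨κ, _, _, f, hf, hs⟩ := hs
  have h1 : SE (tr ρ (x.map φ)) := (se_xt (hf.prodMap injective_id)).mp
    (se_of_el (tr_xt ρ f _ ▸ tr_el ρ hs))
  obtain ⟨a0⟩ := ‹Nonempty r›
  have hg : ∀ a : r, Injective fun i : ι => (i, a) := fun a _ _ e => congrArg Prod.fst e
  obtain ⟨h2, h3⟩ := cl_family (f := fun (a : r) (i : ι) => (i, a)) hg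
    (fun a b h _ _ e => h (congrArg Prod.snd e)) (hg a0) (x := fun _ => x) (fun _ => hx) Finset.univ
  have e : 1 + ∑ a : r, inc S (fun i : ι => (i, a)) * (x - 1) * prj S (fun i : ι => (i, a)) =
      tr ρ (x.map φ) := by
    ext ⟨p, a⟩ ⟨q, b⟩
    simp only [Matrix.add_apply, Matrix.sum_apply, mul_apply, inc, prj, one_apply, tr, h, of_apply,
      map_apply, scalar_apply, diagonal_apply]
    by_cases hab : a = b
    · subst hab
      simp [one_apply, ite_and]
    · simp [hab, one_apply, ite_and]
  have hu : IsUnit (xt (fun i : ι => (i, a0)) x) := hx.map (xtHom (hg a0))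
  rw [e, (cl_eq_one (e ▸ h2)).mpr h1, Finset.prod_const, Finset.card_univ, ← cl_pow hu, eq_comm,
    cl_eq_one (hu.pow _)] at h3
  refine (se_xt (hg a0)).mp ?_
  rwa [show xt _ (x ^ Fintype.card r) = _ from (xtHom (hg a0)).map_pow x _]

theorem exists_split (s : ℕ) : ∃ (r : Type) (_ : Fintype r) (_ : DecidableEq r) (_ : Nonempty r),
    ∀ (A : Type) [CommRing A] [Nontrivial A] (p : A[X]), p.Monic → p.natDegree = s →
      ∃ (B : Type) (_ : CommRing B) (φ : A →+* B) (ρ : B →+* Matrix r r A) (t : ℕ → B),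
        (∀ a, ρ (φ a) = scalar r a) ∧ p.map φ = ∏ l ∈ Finset.range s, (X - C (t l)) := by
  induction s with
  | zero =>
    refine ⟨Unit, inferInstance, inferInstance, inferInstance, fun A _ _ p hp h =>
      ⟨A, inferInstance, RingHom.id A, scalar Unit, 0, fun _ => rfl, ?_⟩⟩
    simp [hp.natDegree_eq_zero.mp h]
  | succ s ih =>
    obtain ⟨r, _, _, _, ih⟩ := ih
    refine ⟨r × Fin (s + 1), inferInstance, inferInstance, inferInstance, fun A _ _ p hp h => ?_⟩
    let ρ1 : AdjoinRoot p →+* Matrix (Fin (s + 1)) (Fin (s + 1)) A :=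
      (Algebra.leftMulMatrix ((AdjoinRoot.powerBasis' hp).basis.reindex (finCongr h))).toRingHom
    have h1 : ∀ a, ρ1 (algebraMap A _ a) = scalar _ a := fun a => AlgHom.commutes _ a
    have := ρ1.domain_nontrivial
    have e := mul_divByMonic_eq_iff_isRoot.mpr (AdjoinRoot.isRoot_root p)
    have hm : (p.map (AdjoinRoot.of p)).Monic := hp.map _
    have hq : (p.map (AdjoinRoot.of p) /ₘ (X - C (AdjoinRoot.root p))).Monic :=
      (monic_X_sub_C _).of_mul_monic_left (e.symm ▸ hm)
    have hd := congrArg natDegree e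
    rw [(monic_X_sub_C _).natDegree_mul hq, natDegree_X_sub_C, hp.natDegree_map, h] at hd
    obtain ⟨B, _, φ, ρ, t, h2, h3⟩ := ih _ _ hq (by omega)
    refine ⟨B, inferInstance, φ.comp (AdjoinRoot.of p), (trHom r ρ1).comp ρ,
      fun l => Nat.casesOn l (φ (AdjoinRoot.root p)) t, fun a => ?_, ?_⟩
    · rw [RingHom.comp_apply, RingHom.comp_apply, h2]
      ext ⟨i, k⟩ ⟨j, l⟩
      have h4 : ρ1 (AdjoinRoot.of p a) = scalar _ a := h1 a
      by_cases hij : i = j <;> simp [trHom, tr, diagonal_apply, hij, h4]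
    · rw [← Polynomial.map_map, ← e, Polynomial.map_mul, h3, Finset.prod_range_succ', mul_comm]
      simp

end Pool.Agent.Lib.MP_69ff52_al
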